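import Pool.Agent.TH505.OW.Ends2

/-!
Single vertices.
-/

set_option autoImplicit false

open Finset

namespace Pool.Agent.TH505.OW

lemma key3 : ∀ r < 1, ∀ i < 5, (∑ j : Fin 3, co (dig (rp 3 r) j) i) = 0 := by decide +kernel
lemma key4 : ∀ r < 15, ∀ i < 5, (∑ j : Fin 4, co (dig (rp 4 r) j) i) = 0 := by decide +kernel
lemma key5 : ∀ r < 112, ∀ i < 5, (∑ j : Fin 5, co (dig (rp 5 r) j) i) = 0 := by decide +kernel

lemma key (k : ℕ) (h3 : 3 ≤ k) (h5 : k ≤ 5) : ∀ r < nr k, ∀ i < 5,
    (∑ j : Fin k, co (dig (rp k r) j) i) = 0 := by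
  interval_cases k
  · exact key3
  · exact key4
  · exact key5

lemma fl_ne (k : ℕ) (h3 : 3 ≤ k) (h5 : k ≤ 5) : ∃ l, l ∈ Fl k := by
  interval_cases k
  · exact ⟨_, List.mem_cons_self⟩
  · exact ⟨_, List.mem_cons_self⟩
  · exact ⟨_, List.mem_cons_self⟩

theorem leaf : StmLeaf := by
  classical
  intro V E _ s t v h3 h5
  obtain ⟨C, hC⟩ : ∃ C, C = cut s t {v} := ⟨_, rfl⟩
  rw [← hC] at h3 h5 ⊢
  have hmem : ∀ e, e ∈ C ↔ ¬ (s e = v ↔ t e = v) := by
    intro e
    rw [hC, cut]
    simp only [Finset.mem_filter, Finset.mem_univ, true_and, Set.mem_singleton_iff]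
  obtain ⟨e0, he0⟩ : C.Nonempty := Finset.card_pos.mp (by omega)
  have hrel : Rel C.card := by unfold Rel; omega
  obtain ⟨l, hl⟩ := fl_ne C.card h3 h5
  let q := C.equivFin
  let o : ℕ → E := fun i => if h : i < C.card then (q.symm ⟨i, h⟩).1 else e0
  refine ⟨o, ⟨?_, ?_⟩, l, hl, ?_⟩
  · intro i hi j hj hij
    simp only [o, dif_pos hi, dif_pos hj] at hij
    have h1 := q.symm.injective (Subtype.ext hij)
    simpa using h1
  · intro e
    rw [← hC]
    constructor
    · intro he
      refine ⟨(q ⟨e, he⟩).1, (q ⟨e, he⟩).2, ?_⟩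
      simp only [o, dif_pos (q ⟨e, he⟩).2, Fin.eta, Equiv.symm_apply_apply]
    · rintro ⟨i, hi, rfl⟩
      simp only [o, dif_pos hi]
      exact (q.symm ⟨i, hi⟩).2
  · intro r hr
    have hr' := f_facts _ hrel l hl r hr
    have k1 := v_facts _ hrel r hr'
    have k2 := key _ h3 h5 r hr'
    obtain ⟨S, hS⟩ : ∃ S, S = rp C.card r := ⟨_, rfl⟩
    rw [← hS] at k1 k2 ⊢
    obtain ⟨f, hf⟩ : ∃ f : E → ℕ, f = fun e => if h : e ∈ C then
        (if s e = v then dig S (q ⟨e, h⟩) else sw (dig S (q ⟨e, h⟩))) else 1 := ⟨_, rfl⟩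
    have hf1 : ∀ e (h : e ∈ C), f e =
        if s e = v then dig S (q ⟨e, h⟩) else sw (dig S (q ⟨e, h⟩)) := by
      intro e h
      rw [hf]
      simp only [dif_pos h]
    have hf2 : ∀ e, e ∉ C → f e = 1 := by
      intro e h
      rw [hf]
      simp only [dif_neg h]
    have hov : ∀ e (h : e ∈ C), ov s {v} f e = dig S (q ⟨e, h⟩) := by
      intro e h
      unfold ov
      rw [hf1 e h]
      by_cases hs : s e = v
      · rw [if_pos hs, if_pos (by simpa using hs)]
      · rw [if_neg hs, if_neg (by simpa using hs), sw_sw]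
        exact ((vc_iff _).1 (k1 _ (q ⟨e, h⟩).2)).1
    refine ⟨f, ⟨?_, ?_⟩, ?_⟩
    · intro e
      by_cases h : e ∈ C
      · rw [hf1 e h]
        split_ifs
        · exact k1 _ (q ⟨e, h⟩).2
        · exact vc_sw _ (k1 _ (q ⟨e, h⟩).2)
      · rw [hf2 e h]
        decide
    · intro w hw b hb
      rw [Set.mem_singleton_iff] at hw
      subst hw
      have h1 : bd s t (fun e => co (f e) b) w =
          ∑ e, if e ∈ C then co (ov s {w} f e) b else 0 := by
        unfold bd
        refine Finset.sum_congr rfl ?_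
        intro e _
        by_cases hm : e ∈ C
        · show co (f e) b * _ = _
          rw [if_pos hm, hov e hm, hf1 e hm]
          have h25 := ((vc_iff _).1 (k1 _ (q ⟨e, hm⟩).2)).1
          have hm' := (hmem e).1 hm
          by_cases h2 : s e = w
          · have h3 : t e ≠ w := fun h => hm' ⟨fun _ => h, fun _ => h2⟩
            simp only [if_pos h2, if_neg h3]
            ring
          · have h3 : t e = w := by
              by_contra h
              exact hm' ⟨fun h' => absurd h' h2, fun h' => absurd h' h⟩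
            simp only [if_neg h2, if_pos h3]
            rw [co_sw _ _ h25]
            ring
        · rw [if_neg hm]
          have hm' : (s e = w ↔ t e = w) := by
            by_contra h
            exact hm ((hmem e).2 h)
          by_cases h2 : s e = w
          · rw [if_pos h2, if_pos (hm'.1 h2)]; ring
          · rw [if_neg h2, if_neg (fun h => h2 (hm'.2 h))]; ring
      rw [h1, Finset.sum_ite_mem, Finset.univ_inter, ← Finset.sum_coe_sort C,
        ← q.symm.sum_comp, ← k2 b hb]
      refine Finset.sum_congr rfl ?_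
      intro j _
      rw [hov _ (q.symm j).2]
      simp only [Subtype.coe_eta, Equiv.apply_symm_apply]
    · intro j hj
      simp only [o, dif_pos hj]
      rw [hov _ (q.symm ⟨j, hj⟩).2]
      simp only [Subtype.coe_eta, Equiv.apply_symm_apply]

end Pool.Agent.TH505.OW
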