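import Pool.Agent.TH505.OW.Perm

/-!
Graphs without cuts of size less than three (following `Pool.Agent.W887.BF.Three`).
-/

set_option autoImplicit false

namespace Pool.Agent.TH505.OW

open Finset

lemma set_nonempty {V : Type} : ∀ U : Tr V, U.set.Nonempty
  | .leaf v => ⟨v, rfl⟩
  | .node l r => by
      obtain ⟨v, hv⟩ := set_nonempty l
      exact ⟨v, Or.inl hv⟩

lemma width_card {V E : Type} [Fintype E] (s t : E → V) (w : ℕ) (U : Tr V)
    (h : U.Width s t w) : (cut s t U.set).card ≤ w := by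
  cases U with
  | leaf v => exact h
  | node l r => exact h.1

lemma keyT (hL : StmLeaf) (hJ : StmJoin) {V E : Type} [Fintype E] (s t : E → V) (A : Set V)
    (hC : ∀ Z : Set V, (∃ v ∈ A, v ∈ Z) → (∃ v ∈ A, v ∉ Z) → 3 ≤ (cut s t Z).card) :
    ∀ U : Tr V, U.Nodup → U.Width s t 5 → U.set ⊆ A → (∃ v ∈ A, v ∉ U.set) →
      HasC s t U.set (cut s t U.set).card ∧ 3 ≤ (cut s t U.set).card ∧
        (cut s t U.set).card ≤ 5 := by
  intro U
  induction U with
  | leaf v =>
      intro _ hW hA hv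
      have h3 : 3 ≤ (cut s t (Tr.leaf v).set).card := by
        obtain ⟨w, hw⟩ := set_nonempty (Tr.leaf v)
        exact hC _ ⟨w, hA hw, hw⟩ hv
      have h5 := width_card s t 5 _ hW
      exact ⟨hL V E s t v h3 h5, h3, h5⟩
  | node l r ihl ihr =>
      intro hN hW hA hv
      have h3 : 3 ≤ (cut s t (Tr.node l r).set).card := by
        obtain ⟨w, hw⟩ := set_nonempty (Tr.node l r)
        exact hC _ ⟨w, hA hw, hw⟩ hv
      have h5 := width_card s t 5 _ hW
      obtain ⟨v, hvA, hvU⟩ := hv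
      have hvl : v ∉ l.set := fun h => hvU (Or.inl h)
      have hvr : v ∉ r.set := fun h => hvU (Or.inr h)
      obtain ⟨l1, l2, l3⟩ := ihl hN.2.1 hW.2.1 (fun x hx => hA (Or.inl hx)) ⟨v, hvA, hvl⟩
      obtain ⟨r1, r2, r3⟩ := ihr hN.2.2 hW.2.2 (fun x hx => hA (Or.inr hx)) ⟨v, hvA, hvr⟩
      exact ⟨hJ V E s t l.set r.set _ _ hN.1 l1 r1 l2 l3 r2 r3 (Or.inr ⟨h3, h5⟩), h3, h5⟩

theorem three : StmLeaf → StmJoin → StmThree := by
  intro hL hJ V E _ s t T hN hW hE hC
  cases T with
  | leaf v =>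
      refine ⟨fun _ => 1, fun _ => (by decide : vc 1 = true), ?_⟩
      intro w hw i _
      unfold bd
      apply Finset.sum_eq_zero
      intro e _
      have hw' : w = v := hw
      have h1 : s e = w := by rw [hw']; exact (hE e).1
      have h2 : t e = w := by rw [hw']; exact (hE e).2
      rw [if_pos h1, if_pos h2]
      ring
  | node l r =>
      obtain ⟨w, hw⟩ := set_nonempty r
      obtain ⟨u, hu⟩ := set_nonempty l
      have hwl : w ∉ l.set := fun h => Set.disjoint_left.mp hN.1 h hw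
      have hur : u ∉ r.set := fun h => Set.disjoint_left.mp hN.1 hu h
      obtain ⟨l1, l2, l3⟩ := keyT hL hJ s t _ hC l hN.2.1 hW.2.1 (fun x hx => Or.inl hx)
        ⟨w, Or.inr hw, hwl⟩
      obtain ⟨r1, r2, r3⟩ := keyT hL hJ s t _ hC r hN.2.2 hW.2.2 (fun x hx => Or.inr hx)
        ⟨u, Or.inl hu, hur⟩
      have hcut : (cut s t (l.set ∪ r.set)).card = 0 := by
        rw [Finset.card_eq_zero, Finset.eq_empty_iff_forall_notMem]
        intro e he
        classical
        have he2 : ¬ (s e ∈ l.set ∪ r.set ↔ t e ∈ l.set ∪ r.set) := by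
          simpa [cut] using he
        exact he2 ⟨fun _ => (hE e).2, fun _ => (hE e).1⟩
      have hj := hJ V E s t l.set r.set _ _ hN.1 l1 r1 l2 l3 r2 r3 (Or.inl hcut)
      rw [hcut] at hj
      obtain ⟨o, _, m, hm, hst⟩ := hj
      have hm0 : m = [0] := by
        have h1 : m ∈ ([[0]] : List (List ℕ)) := hm
        simpa using h1
      subst hm0
      obtain ⟨f, hf, _⟩ := hst 0 (by simp)
      exact ⟨f, hf⟩

end Pool.Agent.TH505.OW
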