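import Pool.Agent.TH505.OW.Sound

/-! Verified tables: gluing of 3 ends and 3 ends along 3 of them. -/

set_option autoImplicit false
set_option maxRecDepth 100000

namespace Pool.Agent.TH505.OW

theorem tab333 : TabOK 3 3 3 :=
  tab_of 3 3 3 1 1 1 (2 ^ 1) (2 ^ 1 - 1) co333 pp333 en333 tl333 tc333 (pb 3 3) AT3 1 AT3 1
    (by decide) (by decide) rfl rfl rfl rfl (by decide) rfl (by decide) (by decide)
    (by decide +kernel) (by decide +kernel) (by decide +kernel) (by decide +kernel)
    (by decide +kernel) (by decide +kernel)

end Pool.Agent.TH505.OW
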