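import Pool.Agent.TH505.OW.Sound

/-! Verified tables: gluing of 4 ends and 3 ends along 1 of them. -/

set_option autoImplicit false
set_option maxRecDepth 100000

namespace Pool.Agent.TH505.OW

theorem tab431 : TabOK 4 3 1 :=
  tab_of 4 3 1 12 112 1344 (2 ^ 1344) (2 ^ 12 - 1) co431 pp431 en431 tl431 tc431 (pb 3 1) AT3 1 AT4 15
    (by decide) (by decide) rfl rfl rfl rfl (by decide) rfl (by decide) (by decide)
    (by decide +kernel) (by decide +kernel) (by decide +kernel) (by decide +kernel)
    (by decide +kernel) (by decide +kernel)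

end Pool.Agent.TH505.OW
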