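import Pool.Agent.TH505.OW.Sound

/-! Verified tables: gluing of 4 ends and 3 ends along 2 of them. -/

set_option autoImplicit false
set_option maxRecDepth 100000

namespace Pool.Agent.TH505.OW

theorem tab432 : TabOK 4 3 2 :=
  tab_of 4 3 2 18 1 18 (2 ^ 18) (2 ^ 18 - 1) co432 pp432 en432 tl432 tc432 (pb 3 2) AT3 1 AT4 15
    (by decide) (by decide) rfl rfl rfl rfl (by decide) rfl (by decide) (by decide)
    (by decide +kernel) (by decide +kernel) (by decide +kernel) (by decide +kernel)
    (by decide +kernel) (by decide +kernel)

end Pool.Agent.TH505.OW
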