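import Pool.Agent.TH505.OW.Sound

/-! Verified tables: gluing of 4 ends and 4 ends along 2 of them. -/

set_option autoImplicit false
set_option maxRecDepth 100000

namespace Pool.Agent.TH505.OW

theorem tab442 : TabOK 4 4 2 :=
  tab_of 4 4 2 18 15 270 (2 ^ 270) (2 ^ 18 - 1) co442 pp442 en442 tl442 tc442 (pb 4 2) AT4 15 AT4 15
    (by decide) (by decide) rfl rfl rfl rfl (by decide) rfl (by decide) (by decide)
    (by decide +kernel) (by decide +kernel) (by decide +kernel) (by decide +kernel)
    (by decide +kernel) (by decide +kernel)

end Pool.Agent.TH505.OW
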