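import Pool.Agent.TH505.OW.Sound

/-! Verified tables: gluing of 4 ends and 4 ends along 4 of them. -/

set_option autoImplicit false
set_option maxRecDepth 100000

namespace Pool.Agent.TH505.OW

theorem tab444 : TabOK 4 4 4 :=
  tab_of 4 4 4 3 1 3 (2 ^ 3) (2 ^ 3 - 1) co444 pp444 en444 tl444 tc444 (pb 4 4) AT4 15 AT4 15
    (by decide) (by decide) rfl rfl rfl rfl (by decide) rfl (by decide) (by decide)
    (by decide +kernel) (by decide +kernel) (by decide +kernel) (by decide +kernel)
    (by decide +kernel) (by decide +kernel)

end Pool.Agent.TH505.OW
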