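import Pool.Agent.TH505.OW.Sound

/-! Verified tables: gluing of 5 ends and 3 ends along 2 of them. -/

set_option autoImplicit false
set_option maxRecDepth 100000

namespace Pool.Agent.TH505.OW

theorem tab532 : TabOK 5 3 2 :=
  tab_of 5 3 2 220 15 3300 (2 ^ 3300) (2 ^ 220 - 1) co532 pp532 en532 tl532 tc532 (pb 3 2) AT3 1 AT5 112
    (by decide) (by decide) rfl rfl rfl rfl (by decide) rfl (by decide) (by decide)
    (by decide +kernel) (by decide +kernel) (by decide +kernel) (by decide +kernel)
    (by decide +kernel) (by decide +kernel)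

end Pool.Agent.TH505.OW
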