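import Pool.Agent.TH505.OW.Sound

/-! Verified tables: gluing of 5 ends and 4 ends along 3 of them. -/

set_option autoImplicit false
set_option maxRecDepth 100000

namespace Pool.Agent.TH505.OW

theorem tab543 : TabOK 5 4 3 :=
  tab_of 5 4 3 220 1 220 (2 ^ 220) (2 ^ 220 - 1) co543 pp543 en543 tl543 tc543 (pb 4 3) AT4 15 AT5 112
    (by decide) (by decide) rfl rfl rfl rfl (by decide) rfl (by decide) (by decide)
    (by decide +kernel) (by decide +kernel) (by decide +kernel) (by decide +kernel)
    (by decide +kernel) (by decide +kernel)

end Pool.Agent.TH505.OW
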