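import Pool.Agent.TH505.OW.Ent

/-! The checker for the gluings. -/

set_option autoImplicit false

namespace Pool.Agent.TH505.OW

/-- Evaluate the argument first. -/
noncomputable def frc (n : ℕ) (f : ℕ → Bool) : Bool := Nat.rec (f 0) (fun m _ => f (Nat.succ m)) n

/-- `f` holds for all entries. -/
noncomputable def allN (l : List ℕ) (f : ℕ → Bool) : Bool :=
  List.rec true (fun h _ ih => cond (f h) ih false) l

/-- Union of the masks `f r`. -/
noncomputable def orN (l : List ℕ) (f : ℕ → ℕ) : ℕ := List.rec 0 (fun h _ ih => Nat.lor ih (f h)) l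

/-- Row `r` of a packed table with rows of `w` bits, `W = 2 ^ w`. -/
def row (P w W r : ℕ) : ℕ := Nat.mod (Nat.shiftRight P (Nat.mul w r)) W

/-- The sets of the first piece from which all classes of the list `t` are obtained. -/
noncomputable def andf (R NG FU : ℕ) (t : List ℕ) : ℕ :=
  List.rec FU (fun r _ ih => Nat.land ih (Nat.shiftRight R (Nat.mul NG r))) t

/-- The sets of the first piece from which one of the lists of `T` is obtained. -/
noncomputable def orT (R NG FU : ℕ) (T : List (List ℕ)) : ℕ :=
  List.rec 0 (fun t _ ih => Nat.lor ih (andf R NG FU t)) T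

/-- The check for the set `l` of the second piece. -/
noncomputable def chk (P w W NG FU A n : ℕ) (B : List ℕ) (T : List (List ℕ)) (l : List ℕ) : Bool :=
  allN B (fun ρ => frc (orN l (fun r => row P w W (actA A n ρ r)))
    (fun R => Nat.beq (orT R NG FU T) FU))

/-- The masks of the classes contained in the sets of the first piece: class `r` and set number `g`
give the bit `NG * r + g`. -/
noncomputable def colF (A n NG : ℕ) (L : List (List ℕ × ℕ)) : ℕ → ℕ :=
  List.rec (fun _ => 0) (fun h _ ih g => Nat.lor (ih (Nat.succ g))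
    (orN h.1 (fun r => Nat.shiftLeft 1 (Nat.add (Nat.mul NG (actA A n h.2 r)) g)))) L

/-- The sets of the first piece. -/
def ml (a c : ℕ) : List (List ℕ × ℕ) := (Fl a).flatMap (fun l => (pa a c).map (fun π => (l, π)))

/-- The packed table of the gluing. -/
noncomputable def ppF (en : List ℕ) (co NG W n3 : ℕ) : ℕ :=
  orN en (fun e => Nat.shiftLeft (row co NG W (e % 128))
    (Nat.mul NG (Nat.add (Nat.mul n3 (e / 128 % 128)) (e / 16384 % 128))))

/-- The conditions for one entry. -/
def okE (a b c e : ℕ) : Bool :=
  Nat.ble (e % 128 + 1) (nr a) && Nat.ble (e / 128 % 128 + 1) (nr b) &&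
  Nat.ble (e / 16384 % 128 + 1) (nr (a + b - 2 * c)) &&
  Nat.ble (e / 2097152 % 256 + 1) 240 && Nat.ble (e / 536870912 + 1) 240 &&
  (List.range c).all (fun i => Nat.beq (pt (e / 2097152 % 256) (dig (rp a (e % 128)) (a - c + i)))
    (sw (pt (e / 536870912) (dig (rp b (e / 128 % 128)) i)))) &&
  (List.range (a - c)).all (fun i => Nat.beq (pt (e / 2097152 % 256) (dig (rp a (e % 128)) i))
    (dig (rp (a + b - 2 * c) (e / 16384 % 128)) i)) &&
  (List.range (b - c)).all (fun i => Nat.beq
    (pt (e / 536870912) (dig (rp b (e / 128 % 128)) (c + i)))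
    (dig (rp (a + b - 2 * c) (e / 16384 % 128)) (a - c + i)))

/-- The list with number `code`. -/
def tof (k code : ℕ) : List ℕ := ((Fl k).getD (code / fc k) []).map (act k (code % fc k))

/-- The lists `T` have the numbers `tc`. -/
def okT (k : ℕ) (T : List (List ℕ)) (tc : List ℕ) : Bool :=
  decide (T = tc.map (tof k)) && tc.all (fun code => Nat.ble (code / fc k + 1) (Fl k).length)

end Pool.Agent.TH505.OW
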