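import Mathlib
import Pool.Agent.TH505.OW.Tab

/-!
Definitions: cuts and boundary sums in a finite multigraph given by two end maps, flows whose values
are differences of two of five unit vectors, carvings, classes of pieces; statements of the parts.
The framework (carvings, pieces, reduction of small cuts) follows `Pool.Agent.W420.BF`.
-/

set_option autoImplicit false

open Finset

namespace Pool.Agent.TH505.OW

open Classical in
/-- The edges with exactly one end in `Z`. -/
noncomputable def cut {V E : Type} [Fintype E] (s t : E → V) (Z : Set V) : Finset E :=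
  univ.filter (fun e => ¬ (s e ∈ Z ↔ t e ∈ Z))

open Classical in
/-- The net amount of `x` that leaves `v`. -/
noncomputable def bd {V E : Type} [Fintype E] (s t : E → V) (x : E → ℤ) (v : V) : ℤ :=
  ∑ e, x e * ((if s e = v then 1 else 0) - (if t e = v then 1 else 0))

/-- The coordinate `i` of the root with code `c`. -/
def co (c i : ℕ) : ℤ := (if c / 5 = i then 1 else 0) - (if c % 5 = i then 1 else 0)

/-- `f` is a flow by codes of roots at the vertices in `X`. -/
def Good {V E : Type} [Fintype E] (s t : E → V) (f : E → ℕ) (X : Set V) : Prop :=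
  (∀ e, vc (f e) = true) ∧ ∀ v ∈ X, ∀ i < 5, bd s t (fun e => co (f e) i) v = 0

/-- The ends of the piece `X` are numbered by `o`. -/
def Ord {V E : Type} [Fintype E] (s t : E → V) (X : Set V) (k : ℕ) (o : ℕ → E) : Prop :=
  (∀ i < k, ∀ j < k, o i = o j → i = j) ∧ ∀ e, e ∈ cut s t X ↔ ∃ i < k, o i = e

open Classical in
/-- The value of `f` at `e` away from `X`. -/
noncomputable def ov {V E : Type} (s : E → V) (X : Set V) (f : E → ℕ) (e : E) : ℕ :=
  if s e ∈ X then f e else sw (f e)

/-- The piece `X` has the state `S`. -/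
def HasSt {V E : Type} [Fintype E] (s t : E → V) (X : Set V) (k : ℕ) (o : ℕ → E) (S : ℕ) : Prop :=
  ∃ f : E → ℕ, Good s t f X ∧ ∀ i < k, ov s X f (o i) = dig S i

/-- The piece `X` with `k` ends has one of the behaviours. -/
def HasC {V E : Type} [Fintype E] (s t : E → V) (X : Set V) (k : ℕ) : Prop :=
  ∃ o : ℕ → E, Ord s t X k o ∧ ∃ l ∈ Fl k, ∀ r ∈ l, HasSt s t X k o (rp k r)

/-- Binary trees with leaves labelled by `V`. -/
inductive Tr (V : Type) : Type
  | leaf (v : V) : Tr V
  | node (l r : Tr V) : Tr V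

/-- The labels of the leaves. -/
def Tr.set {V : Type} : Tr V → Set V
  | .leaf v => {v}
  | .node l r => l.set ∪ r.set

/-- The number of leaves. -/
def Tr.size {V : Type} : Tr V → ℕ
  | .leaf _ => 1
  | .node l r => l.size + r.size

/-- The labels of different leaves are different. -/
def Tr.Nodup {V : Type} : Tr V → Prop
  | .leaf _ => True
  | .node l r => Disjoint l.set r.set ∧ l.Nodup ∧ r.Nodup

/-- For each subtree at most `w` edges leave the set of its leaves. -/
def Tr.Width {V E : Type} [Fintype E] (s t : E → V) (w : ℕ) : Tr V → Prop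
  | .leaf v => (cut s t {v}).card ≤ w
  | .node l r => (cut s t (l.set ∪ r.set)).card ≤ w ∧ l.Width s t w ∧ r.Width s t w

/-- Part PERM: transitivity. -/
def StmTrans : Prop := ∀ c, vc c = true → ∀ d, vc d = true → ∃ p < 240, pt p c = d

/-- Part PERM: applying a symmetry to a good flow. -/
def StmAct : Prop := ∀ (V E : Type) [Fintype E] (s t : E → V) (X : Set V) (f : E → ℕ) (p : ℕ),
  p < 240 → Good s t f X → Good s t (fun e => pt p (f e)) X

/-- Part LEAF: single vertices. -/
def StmLeaf : Prop := ∀ (V E : Type) [Fintype E] (s t : E → V) (v : V),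
  3 ≤ (cut s t {v}).card → (cut s t {v}).card ≤ 5 → HasC s t {v} (cut s t {v}).card

/-- Part JOIN: the union of two pieces. -/
def StmJoin : Prop := ∀ (V E : Type) [Fintype E] (s t : E → V) (X Y : Set V) (a b : ℕ),
  Disjoint X Y → HasC s t X a → HasC s t Y b → 3 ≤ a → a ≤ 5 → 3 ≤ b → b ≤ 5 →
  ((cut s t (X ∪ Y)).card = 0 ∨ 3 ≤ (cut s t (X ∪ Y)).card ∧ (cut s t (X ∪ Y)).card ≤ 5) →
  HasC s t (X ∪ Y) (cut s t (X ∪ Y)).card

/-- Part THREE: graphs without cuts of size less than three. -/
def StmThree : Prop := ∀ (V E : Type) [Fintype E] (s t : E → V) (T : Tr V),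
  T.Nodup → T.Width s t 5 → (∀ e, s e ∈ T.set ∧ t e ∈ T.set) →
  (∀ Z : Set V, (∃ v ∈ T.set, v ∈ Z) → (∃ v ∈ T.set, v ∉ Z) → 3 ≤ (cut s t Z).card) →
  ∃ f : E → ℕ, Good s t f T.set

/-- Part RED: reduction of the cuts of size zero and two. -/
def StmRed : Prop := StmAct → StmTrans → StmThree →
  ∀ (V E : Type) [Fintype E] (s t : E → V) (T : Tr V),
  T.Nodup → T.Width s t 5 → (∀ e, s e ∈ T.set ∧ t e ∈ T.set) →
  (∀ Z : Set V, (cut s t Z).card ≠ 1) → ∃ f : E → ℕ, Good s t f T.set

end Pool.Agent.TH505.OW
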