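import Pool.Agent.TH505.OW.Perm

/-!
Permutations of the ends of a piece.
-/

set_option autoImplicit false

open Finset

namespace Pool.Agent.TH505.OW

/-- The permutation number `σ` of `k` ends is injective. -/
def okpm (k σ : ℕ) : Bool :=
  (List.range k).all fun i => Nat.ble (PM k σ i + 1) k &&
    (List.range k).all fun j => Nat.beq i j || !(Nat.beq (PM k σ i) (PM k σ j))

theorem okpm3 : (List.range 6).all (okpm 3) = true := by decide +kernel
theorem okpm4 : (List.range 24).all (okpm 4) = true := by decide +kernel
theorem okpm5 : (List.range 120).all (okpm 5) = true := by decide +kernel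

/-- The entries of the table of the action. -/
def oka (k σ r : ℕ) : Bool :=
  Nat.ble (ag k σ r + 1) 240 && Nat.ble (act k σ r + 1) (nr k) &&
    (List.range k).all fun i =>
      Nat.beq (pt (ag k σ r) (dig (rp k r) (PM k σ i))) (dig (rp k (act k σ r)) i)

theorem oka3 : ((List.range 6).all fun σ => (List.range 1).all (oka 3 σ)) = true := by
  decide +kernel
theorem oka4 : ((List.range 24).all fun σ => (List.range 15).all (oka 4 σ)) = true := by
  decide +kernel
theorem oka5 : ((List.range 120).all fun σ => (List.range 112).all (oka 5 σ)) = true := by
  decide +kernel

/-- Inverse permutations. -/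
def oki (k σ : ℕ) : Bool :=
  (List.range (fc k)).any fun τ => (List.range (nr k)).all fun r =>
    Nat.beq (act k τ (act k σ r)) r

theorem oki3 : (List.range 6).all (oki 3) = true := by decide +kernel
theorem oki4 : (List.range 24).all (oki 4) = true := by decide +kernel
theorem oki5 : (List.range 120).all (oki 5) = true := by decide +kernel

/-- The explicit sets consist of classes. -/
theorem okF3 : (Fl 3).all (fun l => l.all fun r => Nat.ble (r + 1) 1) = true := by decide +kernel
theorem okF4 : (Fl 4).all (fun l => l.all fun r => Nat.ble (r + 1) 15) = true := by decide +kernel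
theorem okF5 : (Fl 5).all (fun l => l.all fun r => Nat.ble (r + 1) 112) = true := by
  decide +kernel

/-- Valid codes. -/
def okr (k r : ℕ) : Bool := (List.range k).all fun i => vc (dig (rp k r) i)

theorem okr3 : (List.range 1).all (okr 3) = true := by decide +kernel
theorem okr4 : (List.range 15).all (okr 4) = true := by decide +kernel
theorem okr5 : (List.range 112).all (okr 5) = true := by decide +kernel

end Pool.Agent.TH505.OW
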