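import Pool.Agent.TH505.OW.Ends

/-!
Permutations of the ends of a piece: consequences of the tables.
-/

set_option autoImplicit false

open Finset

namespace Pool.Agent.TH505.OW

/-- The numbers of ends that occur. -/
def Rel (k : ℕ) : Prop := k = 0 ∨ k = 3 ∨ k = 4 ∨ k = 5

theorem rangeAll {n : ℕ} {f : ℕ → Bool} (h : (List.range n).all f = true) :
    ∀ i < n, f i = true := fun i hi => (List.all_eq_true.1 h) i (List.mem_range.2 hi)

theorem pm_facts (k : ℕ) (hk : Rel k) (σ : ℕ) (hσ : σ < fc k) : (∀ i < k, PM k σ i < k) ∧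
    (∀ i < k, ∀ j < k, PM k σ i = PM k σ j → i = j) ∧ ∀ i < k, ∃ j < k, PM k σ j = i := by
  have h : okpm k σ = true := by
    rcases hk with rfl | rfl | rfl | rfl
    · rfl
    · exact rangeAll okpm3 σ hσ
    · exact rangeAll okpm4 σ hσ
    · exact rangeAll okpm5 σ hσ
  rw [okpm, List.all_eq_true] at h
  have hlt : ∀ i < k, PM k σ i < k := by
    intro i hi
    have h3 := h i (List.mem_range.2 hi)
    rw [Bool.and_eq_true] at h3
    exact Nat.le_of_ble_eq_true h3.1
  have hinj : ∀ i < k, ∀ j < k, PM k σ i = PM k σ j → i = j := by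
    intro i hi j hj hij
    have h3 := h i (List.mem_range.2 hi)
    rw [Bool.and_eq_true, List.all_eq_true] at h3
    have h4 := h3.2 j (List.mem_range.2 hj)
    rw [hij, Bool.or_eq_true] at h4
    rcases h4 with h4 | h4
    · exact Nat.eq_of_beq_eq_true h4
    · rw [Nat.beq_refl] at h4
      simp at h4
  refine ⟨hlt, hinj, fun i hi => ?_⟩
  have hinj' : Function.Injective (fun i : Fin k => (⟨PM k σ i, hlt i i.2⟩ : Fin k)) := by
    intro i j hij
    exact Fin.ext (hinj i i.2 j j.2 (Fin.mk.inj hij))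
  obtain ⟨j, hj⟩ := (Finite.injective_iff_surjective.1 hinj') ⟨i, hi⟩
  exact ⟨j, j.2, Fin.mk.inj hj⟩

theorem act_facts (k : ℕ) (hk : Rel k) (σ : ℕ) (hσ : σ < fc k) (r : ℕ) (hr : r < nr k) :
    ag k σ r < 240 ∧ act k σ r < nr k ∧
      ∀ i < k, pt (ag k σ r) (dig (rp k r) (PM k σ i)) = dig (rp k (act k σ r)) i := by
  have h : oka k σ r = true := by
    rcases hk with rfl | rfl | rfl | rfl
    · have h0 : σ = 0 := by
        have : fc 0 = 1 := rfl
        omega
      have h1 : r = 0 := by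
        have : nr 0 = 1 := rfl
        omega
      subst h0 h1
      decide
    · exact rangeAll (rangeAll oka3 σ hσ) r hr
    · exact rangeAll (rangeAll oka4 σ hσ) r hr
    · exact rangeAll (rangeAll oka5 σ hσ) r hr
  rw [oka, Bool.and_eq_true, Bool.and_eq_true, Nat.ble_eq, Nat.ble_eq] at h
  refine ⟨by omega, by omega, fun i hi => ?_⟩
  exact Nat.eq_of_beq_eq_true (rangeAll h.2 i hi)

theorem inv_facts (k : ℕ) (hk : Rel k) (σ : ℕ) (hσ : σ < fc k) :
    ∃ τ < fc k, ∀ r < nr k, act k τ (act k σ r) = r := by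
  have h : oki k σ = true := by
    rcases hk with rfl | rfl | rfl | rfl
    · have h0 : σ = 0 := by
        have : fc 0 = 1 := rfl
        omega
      subst h0
      decide
    · exact rangeAll oki3 σ hσ
    · exact rangeAll oki4 σ hσ
    · exact rangeAll oki5 σ hσ
  obtain ⟨τ, hτ, h2⟩ := List.any_eq_true.1 h
  exact ⟨τ, List.mem_range.1 hτ, fun r hr => Nat.eq_of_beq_eq_true (rangeAll h2 r hr)⟩

theorem f_facts (k : ℕ) (hk : Rel k) : ∀ l ∈ Fl k, ∀ r ∈ l, r < nr k := by
  intro l hl r hr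
  have key : ∀ n, (Fl k).all (fun l => l.all fun r => Nat.ble (r + 1) n) = true → r < n := by
    intro n h
    have h1 := (List.all_eq_true.1 ((List.all_eq_true.1 h) l hl)) r hr
    rw [Nat.ble_eq] at h1
    omega
  rcases hk with rfl | rfl | rfl | rfl
  · exact key 1 rfl
  · exact key 1 okF3
  · exact key 15 okF4
  · exact key 112 okF5

theorem v_facts (k : ℕ) (hk : Rel k) (r : ℕ) (hr : r < nr k) (i : ℕ) (hi : i < k) :
    vc (dig (rp k r) i) = true := by
  rcases hk with rfl | rfl | rfl | rfl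
  · omega
  · exact rangeAll (rangeAll okr3 r hr) i hi
  · exact rangeAll (rangeAll okr4 r hr) i hi
  · exact rangeAll (rangeAll okr5 r hr) i hi

variable {V E : Type} [Fintype E]

theorem mem_cut (s t : E → V) (Z : Set V) (e : E) :
    e ∈ cut s t Z ↔ ¬ (s e ∈ Z ↔ t e ∈ Z) := by
  classical
  unfold cut
  simp only [mem_filter, mem_univ, true_and]

theorem ord_card (s t : E → V) (X : Set V) (k : ℕ) (o : ℕ → E) (h : Ord s t X k o) :
    (cut s t X).card = k := by
  classical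
  have h1 : cut s t X = (range k).image o := by
    ext e
    rw [h.2 e, mem_image]
    constructor
    · rintro ⟨i, hi, rfl⟩; exact ⟨i, mem_range.2 hi, rfl⟩
    · rintro ⟨i, hi, rfl⟩; exact ⟨i, mem_range.1 hi, rfl⟩
  rw [h1, card_image_of_injOn, card_range]
  intro i hi j hj hij
  exact h.1 i (by simpa using hi) j (by simpa using hj) hij

theorem ord_perm (s t : E → V) (X : Set V) (k : ℕ) (hk : Rel k) (o : ℕ → E) (h : Ord s t X k o)
    (σ : ℕ) (hσ : σ < fc k) : Ord s t X k (fun i => o (PM k σ i)) := by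
  obtain ⟨h1, h2, h3⟩ := pm_facts k hk σ hσ
  refine ⟨fun i hi j hj hij => h2 i hi j hj (h.1 _ (h1 i hi) _ (h1 j hj) hij), fun e => ?_⟩
  rw [h.2 e]
  constructor
  · rintro ⟨i, hi, rfl⟩
    obtain ⟨j, hj, rfl⟩ := h3 i hi
    exact ⟨j, hj, rfl⟩
  · rintro ⟨i, hi, rfl⟩
    exact ⟨_, h1 i hi, rfl⟩

theorem ov_pt (s t : E → V) (X : Set V) (f : E → ℕ) (hf : ∀ e, vc (f e) = true) (p : ℕ)
    (hp : p < 240) (e : E) : ov s X (fun e => pt p (f e)) e = pt p (ov s X f e) := by
  unfold ov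
  split_ifs
  · rfl
  · rw [pt_sw p _ hp (hf e)]

theorem st_perm (s t : E → V) (X : Set V) (k : ℕ) (hk : Rel k) (o : ℕ → E) (r : ℕ)
    (hr : r < nr k) (h : HasSt s t X k o (rp k r)) (σ : ℕ) (hσ : σ < fc k) :
    HasSt s t X k (fun i => o (PM k σ i)) (rp k (act k σ r)) := by
  obtain ⟨f, hf1, hf2⟩ := h
  obtain ⟨h1, h2, h3⟩ := act_facts k hk σ hσ r hr
  obtain ⟨h4, _, _⟩ := pm_facts k hk σ hσ
  refine ⟨fun e => pt (ag k σ r) (f e), act_good V E s t X f _ h1 hf1, fun i hi => ?_⟩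
  rw [ov_pt s t X f hf1.1 _ h1, hf2 _ (h4 i hi), h3 i hi]

end Pool.Agent.TH505.OW
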