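import Pool.Agent.TH505.OW.Pats
import Pool.Agent.TH505.OW.C331
import Pool.Agent.TH505.OW.C333
import Pool.Agent.TH505.OW.C431
import Pool.Agent.TH505.OW.C432
import Pool.Agent.TH505.OW.C532
import Pool.Agent.TH505.OW.C442
import Pool.Agent.TH505.OW.C444
import Pool.Agent.TH505.OW.C542
import Pool.Agent.TH505.OW.C543
import Pool.Agent.TH505.OW.C553
import Pool.Agent.TH505.OW.C555

/-!
The union of two pieces.
-/

set_option autoImplicit false

open Finset

namespace Pool.Agent.TH505.OW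

variable {V E : Type} [Fintype E]

theorem bd_congr (s t : E → V) (x y : E → ℤ) (v : V)
    (h : ∀ e, (s e = v ∨ t e = v) → x e = y e) : bd s t x v = bd s t y v := by
  classical
  unfold bd
  refine Finset.sum_congr rfl fun e _ => ?_
  by_cases h1 : s e = v
  · rw [h e (Or.inl h1)]
  · by_cases h2 : t e = v
    · rw [h e (Or.inr h2)]
    · simp [h1, h2]

theorem mem_cut_union (s t : E → V) (X Y : Set V) (hd : Disjoint X Y) (e : E) :
    e ∈ cut s t (X ∪ Y) ↔ (e ∈ cut s t X ∧ e ∉ cut s t Y) ∨ (e ∈ cut s t Y ∧ e ∉ cut s t X) := by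
  have h : ∀ v, v ∈ X → v ∉ Y := fun v hv => Set.disjoint_left.mp hd hv
  have h1 := h (s e)
  have h2 := h (t e)
  simp only [mem_cut, Set.mem_union]
  tauto

/-- Gluing in the standard position. -/
theorem join_std (s t : E → V) (X Y : Set V) (hd : Disjoint X Y) (a b c : ℕ) (hca : c ≤ a)
    (hcb : c ≤ b) (oX oY : ℕ → E) (hX : Ord s t X a oX) (hY : Ord s t Y b oY)
    (hsh : ∀ i < c, oX (a - c + i) = oY i) (hfX : ∀ i < a - c, oX i ∉ cut s t Y)
    (hfY : ∀ i < b - c, oY (c + i) ∉ cut s t X) (o : ℕ → E)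
    (ho1 : ∀ i < a - c, o i = oX i) (ho2 : ∀ i < b - c, o (a - c + i) = oY (c + i)) :
    Ord s t (X ∪ Y) (a + b - 2 * c) o ∧ ∀ r1 r2 r3 p q, p < 240 → q < 240 →
      GlueP a b c r1 r2 r3 p q → HasSt s t X a oX (rp a r1) → HasSt s t Y b oY (rp b r2) →
      HasSt s t (X ∪ Y) (a + b - 2 * c) o (rp (a + b - 2 * c) r3) := by
  classical
  have hdis : ∀ v, v ∈ X → v ∉ Y := fun v hv => Set.disjoint_left.mp hd hv
  have hcase : ∀ i < a + b - 2 * c, i < a - c ∨ ∃ j < b - c, i = a - c + j := by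
    intro i hi
    by_cases h : i < a - c
    · exact Or.inl h
    · exact Or.inr ⟨i - (a - c), by omega, by omega⟩
  refine ⟨⟨?_, ?_⟩, ?_⟩
  · intro i hi j hj hij
    rcases hcase i hi with h1 | ⟨i', hi', rfl⟩
    · rcases hcase j hj with h2 | ⟨j', hj', rfl⟩
      · rw [ho1 i h1, ho1 j h2] at hij
        exact hX.1 i (by omega) j (by omega) hij
      · rw [ho1 i h1, ho2 j' hj'] at hij
        have h3 := hfX i h1
        rw [hij] at h3
        exact absurd ((hY.2 _).2 ⟨c + j', by omega, rfl⟩) h3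
    · rcases hcase j hj with h2 | ⟨j', hj', rfl⟩
      · rw [ho2 i' hi', ho1 j h2] at hij
        have h3 := hfX j h2
        rw [← hij] at h3
        exact absurd ((hY.2 _).2 ⟨c + i', by omega, rfl⟩) h3
      · rw [ho2 i' hi', ho2 j' hj'] at hij
        have := hY.1 _ (by omega) _ (by omega) hij
        omega
  · intro e
    rw [mem_cut_union s t X Y hd]
    constructor
    · rintro (⟨h1, h2⟩ | ⟨h1, h2⟩)
      · obtain ⟨i, hi, rfl⟩ := (hX.2 e).1 h1
        by_cases h : i < a - c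
        · exact ⟨i, by omega, ho1 i h⟩
        · exfalso
          have h3 := hsh (i - (a - c)) (by omega)
          rw [show a - c + (i - (a - c)) = i by omega] at h3
          rw [h3] at h2
          exact h2 ((hY.2 _).2 ⟨_, by omega, rfl⟩)
      · obtain ⟨i, hi, rfl⟩ := (hY.2 e).1 h1
        by_cases h : i < c
        · exfalso
          rw [← hsh i h] at h2
          exact h2 ((hX.2 _).2 ⟨_, by omega, rfl⟩)
        · refine ⟨a - c + (i - c), by omega, ?_⟩
          rw [ho2 _ (by omega), show c + (i - c) = i by omega]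
    · rintro ⟨i, hi, rfl⟩
      rcases hcase i hi with h1 | ⟨j, hj, rfl⟩
      · left
        rw [ho1 i h1]
        exact ⟨(hX.2 _).2 ⟨i, by omega, rfl⟩, hfX i h1⟩
      · right
        rw [ho2 j hj]
        exact ⟨(hY.2 _).2 ⟨c + j, by omega, rfl⟩, hfY j hj⟩
  · rintro r1 r2 r3 p q hp hq ⟨g1, g2, g3⟩ ⟨fX, gX, vX⟩ ⟨fY, gY, vY⟩
    have gX' := act_good V E s t X fX p hp gX
    have gY' := act_good V E s t Y fY q hq gY
    obtain ⟨f, hf⟩ : ∃ f : E → ℕ, f = fun e => if s e ∈ X ∨ t e ∈ X then pt p (fX e)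
      else pt q (fY e) := ⟨_, rfl⟩
    have hf1 : ∀ e, (s e ∈ X ∨ t e ∈ X) → f e = pt p (fX e) := fun e he => by
      rw [hf]; simp only [if_pos he]
    have hf2 : ∀ e, ¬ (s e ∈ X ∨ t e ∈ X) → f e = pt q (fY e) := fun e he => by
      rw [hf]; simp only [if_neg he]
    have hf3 : ∀ e, (s e ∈ Y ∨ t e ∈ Y) → f e = pt q (fY e) := by
      intro e he
      by_cases hx : s e ∈ X ∨ t e ∈ X
      · have h1 := hdis (s e)
        have h2 := hdis (t e)
        have hcX : e ∈ cut s t X := by rw [mem_cut]; tauto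
        have hcY : e ∈ cut s t Y := by rw [mem_cut]; tauto
        rw [hf1 e hx]
        obtain ⟨x, hx', hxe⟩ := (hX.2 e).mp hcX
        have hxc : ¬ x < a - c := by
          intro h
          have := hfX x h
          rw [hxe] at this
          exact this hcY
        have h3 := hsh (x - (a - c)) (by omega)
        rw [show a - c + (x - (a - c)) = x by omega, hxe] at h3
        have h4 := g1 (x - (a - c)) (by omega)
        rw [show a - c + (x - (a - c)) = x by omega, ← vX x hx', ← vY _ (by omega), ← h3,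
          hxe] at h4
        have hvY := ((vc_iff _).1 (gY.1 e)).1
        by_cases hs : s e ∈ X
        · have hsY : s e ∉ Y := hdis _ hs
          unfold ov at h4
          rw [if_pos hs, if_neg hsY, pt_sw q _ hq (gY.1 e),
            sw_sw _ ((vc_iff _).1 (pt_vc q _ hq (gY.1 e))).1] at h4
          exact h4
        · have htX : t e ∈ X := hx.resolve_left hs
          have hsY : s e ∈ Y := by
            by_contra h
            rcases he with he | he
            · exact h he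
            · exact h2 htX he
          unfold ov at h4
          rw [if_neg hs, if_pos hsY, pt_sw p _ hp (gX.1 e)] at h4
          have h5 := congrArg sw h4
          rw [sw_sw _ ((vc_iff _).1 (pt_vc p _ hp (gX.1 e))).1,
            sw_sw _ ((vc_iff _).1 (pt_vc q _ hq (gY.1 e))).1] at h5
          exact h5
      · exact hf2 e hx
    have hvc : ∀ e, vc (f e) = true := by
      intro e
      by_cases hx : s e ∈ X ∨ t e ∈ X
      · rw [hf1 e hx]; exact gX'.1 e
      · rw [hf2 e hx]; exact gY'.1 e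
    refine ⟨f, ⟨hvc, ?_⟩, ?_⟩
    · intro v hv i hi
      rcases hv with hv | hv
      · rw [← gX'.2 v hv i hi]
        refine bd_congr s t _ _ v fun e he => ?_
        rw [hf1 e (by rcases he with h | h <;> rw [h] <;> simp [hv])]
      · rw [← gY'.2 v hv i hi]
        refine bd_congr s t _ _ v fun e he => ?_
        rw [hf3 e (by rcases he with h | h <;> rw [h] <;> simp [hv])]
    · intro i hi
      rcases hcase i hi with h1 | ⟨j, hj, rfl⟩
      · rw [ho1 i h1, ← g2 i h1, ← vX i (by omega)]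
        have hcX : oX i ∈ cut s t X := (hX.2 _).2 ⟨i, by omega, rfl⟩
        have hcY := hfX i h1
        rw [mem_cut] at hcX hcY
        by_cases hs : s (oX i) ∈ X
        · unfold ov
          rw [if_pos (show s (oX i) ∈ X ∪ Y from Or.inl hs), if_pos hs, hf1 _ (Or.inl hs)]
        · have ht : t (oX i) ∈ X := by
            by_contra h
            exact hcX ⟨fun h' => absurd h' hs, fun h' => absurd h' h⟩
          have hsY : s (oX i) ∉ Y := by
            intro h
            have h5 : t (oX i) ∈ Y := by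
              by_contra h6
              exact hcY (fun h' => h6 (h'.1 h))
            exact hdis _ ht h5
          unfold ov
          rw [if_neg (show s (oX i) ∉ X ∪ Y from fun h => h.elim hs hsY), if_neg hs,
            hf1 _ (Or.inr ht),
            pt_sw p _ hp (gX.1 _)]
      · rw [ho2 j hj, ← g3 j hj, ← vY _ (by omega)]
        have hcY : oY (c + j) ∈ cut s t Y := (hY.2 _).2 ⟨c + j, by omega, rfl⟩
        have hcX := hfY j hj
        rw [mem_cut] at hcX hcY
        by_cases hs : s (oY (c + j)) ∈ Y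
        · unfold ov
          rw [if_pos (show s (oY (c + j)) ∈ X ∪ Y from Or.inr hs), if_pos hs, hf3 _ (Or.inl hs)]
        · have ht : t (oY (c + j)) ∈ Y := by
            by_contra h
            exact hcY ⟨fun h' => absurd h' hs, fun h' => absurd h' h⟩
          have hsX : s (oY (c + j)) ∉ X := by
            intro h
            have h5 : t (oY (c + j)) ∈ X := by
              by_contra h6
              exact hcX (fun h' => h6 (h'.1 h))
            exact hdis _ h5 ht
          unfold ov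
          rw [if_neg (show s (oY (c + j)) ∉ X ∪ Y from fun h => h.elim hsX hs), if_neg hs,
            hf3 _ (Or.inr ht),
            pt_sw q _ hq (gY.1 _)]

theorem okG_facts (a b : ℕ) (hb : 3 ≤ b) (hab : b ≤ a) (ha : a ≤ 5) (G : List ℕ)
    (hG : G ∈ pats b a) : ∃ c ≤ a, c ≤ b ∧ ∃ π ∈ pa a c, ∃ ρ ∈ pb b c,
      (∀ i < a - c, G.getD (PM a π i) b = b) ∧ (∀ i < c, G.getD (PM a π (a - c + i)) b ≠ b) ∧
      (∀ i < c, PM b ρ i = G.getD (PM a π (a - c + i)) b) ∧
      ∀ i < b - c, PM b ρ (c + i) ∉ G := by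
  have h : okG a b G = true := by
    have hc : (a = 3 ∧ b = 3) ∨ (a = 4 ∧ b = 3) ∨ (a = 4 ∧ b = 4) ∨ (a = 5 ∧ b = 3) ∨
        (a = 5 ∧ b = 4) ∨ (a = 5 ∧ b = 5) := by omega
    rcases hc with ⟨rfl, rfl⟩ | ⟨rfl, rfl⟩ | ⟨rfl, rfl⟩ | ⟨rfl, rfl⟩ | ⟨rfl, rfl⟩ | ⟨rfl, rfl⟩
    · exact (List.all_eq_true.1 okG33) G hG
    · exact (List.all_eq_true.1 okG43) G hG
    · exact (List.all_eq_true.1 okG44) G hG
    · exact (List.all_eq_true.1 okG53) G hG
    · exact (List.all_eq_true.1 okG54) G hG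
    · exact (List.all_eq_true.1 okG55) G hG
  unfold okG at h
  generalize ng a b G = c at h
  simp only [Bool.and_eq_true, Nat.ble_eq, List.any_eq_true, List.all_eq_true, List.mem_range,
    Nat.beq_eq, Bool.not_eq_true', List.contains_eq_mem, decide_eq_false_iff_not] at h
  obtain ⟨⟨h1, h2⟩, π, hπ, ⟨h3, h4⟩, ρ, hρ, h5, h6⟩ := h
  refine ⟨c, h1, h2, π, hπ, ρ, hρ, h3, fun i hi => ?_, h5, h6⟩
  have h7 := h4 i hi
  rw [← Bool.not_eq_true, Nat.beq_eq] at h7
  exact h7

theorem tabAll (a b c : ℕ) (hb : 3 ≤ b) (hab : b ≤ a) (ha : a ≤ 5) (hcb : c ≤ b)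
    (hr : Rel (a + b - 2 * c)) : TabOK a b c := by
  unfold Rel at hr
  have hc : (a = 3 ∧ b = 3 ∧ (c = 1 ∨ c = 3)) ∨ (a = 4 ∧ b = 3 ∧ (c = 1 ∨ c = 2)) ∨
      (a = 4 ∧ b = 4 ∧ (c = 2 ∨ c = 4)) ∨ (a = 5 ∧ b = 3 ∧ c = 2) ∨
      (a = 5 ∧ b = 4 ∧ (c = 2 ∨ c = 3)) ∨ (a = 5 ∧ b = 5 ∧ (c = 3 ∨ c = 5)) := by omega
  rcases hc with ⟨rfl, rfl, rfl | rfl⟩ | ⟨rfl, rfl, rfl | rfl⟩ | ⟨rfl, rfl, rfl | rfl⟩ |
    ⟨rfl, rfl, rfl⟩ | ⟨rfl, rfl, rfl | rfl⟩ | ⟨rfl, rfl, rfl | rfl⟩
  · exact tab331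
  · exact tab333
  · exact tab431
  · exact tab432
  · exact tab442
  · exact tab444
  · exact tab532
  · exact tab542
  · exact tab543
  · exact tab553
  · exact tab555

theorem pa_lt {a c π : ℕ} (h : π ∈ pa a c) : π < fc a := by
  unfold pa at h
  exact List.mem_range.1 (List.mem_filter.1 h).1

theorem pb_lt {b c ρ : ℕ} (h : ρ ∈ pb b c) : ρ < fc b := by
  unfold pb at h
  exact List.mem_range.1 (List.mem_filter.1 h).1

theorem join_le (s t : E → V) (X Y : Set V) (a b : ℕ) (hd : Disjoint X Y)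
    (hX : HasC s t X a) (hY : HasC s t Y b) (hb : 3 ≤ b) (hab : b ≤ a) (ha : a ≤ 5)
    (hk : (cut s t (X ∪ Y)).card = 0 ∨
      3 ≤ (cut s t (X ∪ Y)).card ∧ (cut s t (X ∪ Y)).card ≤ 5) :
    HasC s t (X ∪ Y) (cut s t (X ∪ Y)).card := by
  classical
  obtain ⟨oX, ordX, lX, hlX, sX⟩ := hX
  obtain ⟨oY, ordY, lY, hlY, sY⟩ := hY
  have hra : Rel a := by unfold Rel; omega
  have hrb : Rel b := by unfold Rel; omega
  obtain ⟨iX, mX⟩ := id ordX
  obtain ⟨iY, mY⟩ := id ordY
  obtain ⟨g, hg⟩ : ∃ g : ℕ → ℕ, g = fun x => if h : ∃ y < b, oY y = oX x then h.choose else b :=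
    ⟨_, rfl⟩
  have hg2 : ∀ x, g x ≠ b → g x < b ∧ oY (g x) = oX x := by
    intro x hx
    by_cases h : ∃ y < b, oY y = oX x
    · have : g x = h.choose := by rw [hg]; simp only [dif_pos h]
      rw [this]; exact h.choose_spec
    · exact absurd (by rw [hg]; simp only [dif_neg h]) hx
  have hg1 : ∀ x, g x ≤ b := by
    intro x
    by_cases h : g x = b
    · exact h.le
    · exact (hg2 x h).1.le
  have hg3 : ∀ x y, y < b → oY y = oX x → g x = y := by
    intro x y hy hxy
    have h : ∃ y < b, oY y = oX x := ⟨y, hy, hxy⟩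
    have h1 : g x = h.choose := by rw [hg]; simp only [dif_pos h]
    rw [h1]
    exact iY _ h.choose_spec.1 _ hy (h.choose_spec.2.trans hxy.symm)
  obtain ⟨G, hGd⟩ : ∃ G : List ℕ, G = (List.range a).map g := ⟨_, rfl⟩
  have hGg : ∀ x < a, G.getD x b = g x := by
    intro x hx
    rw [hGd, List.getD_eq_getElem?_getD, List.getElem?_map, List.getElem?_range hx]
    rfl
  have hGm : ∀ y, y ∈ G ↔ ∃ x < a, g x = y := by
    intro y
    rw [hGd, List.mem_map]
    simp only [List.mem_range]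
  have hGp : G ∈ pats b a := by
    refine mem_pats b a G (by rw [hGd]; simp) ?_ ?_
    · intro y hy
      obtain ⟨x, _, rfl⟩ := (hGm y).mp hy
      exact hg1 x
    · rw [hGd, List.pairwise_map]
      refine List.Pairwise.imp_of_mem ?_ (List.nodup_range (n := a))
      intro x y hx hy hxy h
      by_contra hne
      have h1 := (hg2 x hne).2
      have h2 := (hg2 y (by rw [← h]; exact hne)).2
      rw [h] at h1
      exact hxy (iX x (List.mem_range.mp hx) y (List.mem_range.mp hy) (h1.symm.trans h2))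
  obtain ⟨c, hca, hcb, π, hπ, ρ, hρ, p1, p2, p3, p4⟩ := okG_facts a b hb hab ha G hGp
  have hπ' := pa_lt hπ
  have hρ' := pb_lt hρ
  obtain ⟨πl, _, _⟩ := pm_facts a hra π hπ'
  obtain ⟨ρl, _, _⟩ := pm_facts b hrb ρ hρ'
  have ordX' := ord_perm s t X a hra oX ordX π hπ'
  have ordY' := ord_perm s t Y b hrb oY ordY ρ hρ'
  have q1 : ∀ i < c, oX (PM a π (a - c + i)) = oY (PM b ρ i) := by
    intro i hi
    have h1 := πl (a - c + i) (by omega)
    rw [p3 i hi, hGg _ h1]
    have h2 := p2 i hi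
    rw [hGg _ h1] at h2
    exact (hg2 _ h2).2.symm
  have q2 : ∀ i < a - c, oX (PM a π i) ∉ cut s t Y := by
    intro i hi h
    obtain ⟨y, hy, hyx⟩ := (mY _).1 h
    have h1 := hg3 _ y hy hyx
    have h2 := p1 i hi
    rw [hGg _ (πl i (by omega)), h1] at h2
    omega
  have q3 : ∀ i < b - c, oY (PM b ρ (c + i)) ∉ cut s t X := by
    intro i hi h
    obtain ⟨x, hx, hxy⟩ := (mX _).1 h
    have h1 := hg3 x _ (ρl (c + i) (by omega)) hxy.symm
    exact p4 i hi ((hGm _).2 ⟨x, hx, h1⟩)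
  obtain ⟨o, ho⟩ : ∃ o : ℕ → E, o = fun i => if i < a - c then oX (PM a π i)
    else oY (PM b ρ (c + (i - (a - c)))) := ⟨_, rfl⟩
  have ho1 : ∀ i < a - c, o i = oX (PM a π i) := by
    intro i hi
    rw [ho]; simp only [if_pos hi]
  have ho2 : ∀ i < b - c, o (a - c + i) = oY (PM b ρ (c + i)) := by
    intro i hi
    rw [ho]; simp only [if_neg (by omega : ¬ a - c + i < a - c), Nat.add_sub_cancel_left]
  obtain ⟨ordU, glue⟩ := join_std s t X Y hd a b c hca hcb (fun i => oX (PM a π i))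
    (fun i => oY (PM b ρ i)) ordX' ordY' q1 q2 q3 o ho1 ho2
  have hcard := ord_card s t _ _ _ ordU
  rw [hcard] at hk ⊢
  have hr : Rel (a + b - 2 * c) := by unfold Rel; omega
  obtain ⟨l3, hl3, σ, hσ, hx⟩ := tabAll a b c hb hab ha hcb hr lX hlX π hπ lY hlY ρ hρ
  obtain ⟨τ, hτ, hinv⟩ := inv_facts _ hr σ hσ
  refine ⟨fun i => o (PM (a + b - 2 * c) τ i), ord_perm s t _ _ hr o ordU τ hτ, l3, hl3, ?_⟩
  intro x hxl
  obtain ⟨x1, hx1, x2, hx2, p, hp, q, hq, hgl⟩ := hx x hxl
  have hn1 := f_facts a hra lX hlX x1 hx1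
  have hn2 := f_facts b hrb lY hlY x2 hx2
  have hn3 := f_facts _ hr l3 hl3 x hxl
  have st3 := glue _ _ _ p q hp hq hgl
    (st_perm s t X a hra oX x1 hn1 (sX x1 hx1) π hπ')
    (st_perm s t Y b hrb oY x2 hn2 (sY x2 hx2) ρ hρ')
  have h4 := st_perm s t (X ∪ Y) _ hr o _ (act_facts _ hr σ hσ x hn3).2.1 st3 τ hτ
  rw [hinv x hn3] at h4
  exact h4

theorem join : StmJoin := by
  intro V E _ s t X Y a b hd hX hY ha ha5 hb hb5 hk
  rcases le_total b a with h | h
  · exact join_le s t X Y a b hd hX hY hb h ha5 hk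
  · rw [Set.union_comm] at hk ⊢
    exact join_le s t Y X b a hd.symm hY hX ha h hb5 hk

end Pool.Agent.TH505.OW
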