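import Pool.Agent.TH505.OW.Ends2

/-!
Which ends of the first piece are glued to which ends of the second one.
-/

set_option autoImplicit false

open Finset

namespace Pool.Agent.TH505.OW

/-- All partial injections from `n` ends to `b` ends (`b` means not glued). -/
def pats (b : ℕ) : ℕ → List (List ℕ)
  | 0 => [[]]
  | n + 1 => (pats b n).flatMap (fun l => ((List.range (b + 1)).filter
      (fun y => Nat.beq y b || !(l.contains y))).map (fun y => y :: l))

theorem mem_pats (b : ℕ) : ∀ (n : ℕ) (l : List ℕ), l.length = n → (∀ y ∈ l, y ≤ b) →
    l.Pairwise (fun y z => y = z → y = b) → l ∈ pats b n := by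
  intro n
  induction n with
  | zero =>
    intro l hl _ _
    rw [List.length_eq_zero_iff] at hl
    subst hl
    simp [pats]
  | succ n ih =>
    intro l hl hb hp
    cases l with
    | nil => simp at hl
    | cons y l =>
      rw [pats, List.mem_flatMap]
      refine ⟨l, ih l (by simpa using hl) (fun z hz => hb z (List.mem_cons_of_mem _ hz))
        (List.pairwise_cons.mp hp).2, ?_⟩
      rw [List.mem_map]
      refine ⟨y, ?_, rfl⟩
      rw [List.mem_filter, List.mem_range]
      refine ⟨Nat.lt_succ_of_le (hb y List.mem_cons_self), ?_⟩
      by_cases hyb : y = b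
      · simp [hyb]
      · have : y ∉ l := by
          intro hy
          exact hyb ((List.pairwise_cons.mp hp).1 y hy rfl)
        simp [this]

/-- The number of glued ends. -/
def ng (a b : ℕ) (G : List ℕ) : ℕ :=
  ((List.range a).filter (fun x => !(Nat.beq (G.getD x b) b))).length

/-- There are permutations of the ends that put the glued ends in the standard position. -/
def okG (a b : ℕ) (G : List ℕ) : Bool :=
  Nat.ble (ng a b G) a && Nat.ble (ng a b G) b &&
  (pa a (ng a b G)).any (fun π =>
    (List.range (a - ng a b G)).all (fun i => Nat.beq (G.getD (PM a π i) b) b) &&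
    (List.range (ng a b G)).all (fun i => !(Nat.beq (G.getD (PM a π (a - ng a b G + i)) b) b)) &&
    (pb b (ng a b G)).any (fun ρ =>
      (List.range (ng a b G)).all (fun i =>
        Nat.beq (PM b ρ i) (G.getD (PM a π (a - ng a b G + i)) b)) &&
      (List.range (b - ng a b G)).all (fun i => !(G.contains (PM b ρ (ng a b G + i))))))

theorem okG33 : (pats 3 3).all (okG 3 3) = true := by decide +kernel
theorem okG43 : (pats 3 4).all (okG 4 3) = true := by decide +kernel
theorem okG44 : (pats 4 4).all (okG 4 4) = true := by decide +kernel
theorem okG53 : (pats 3 5).all (okG 5 3) = true := by decide +kernel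
theorem okG54 : (pats 4 5).all (okG 5 4) = true := by decide +kernel
theorem okG55 : (pats 5 5).all (okG 5 5) = true := by decide +kernel

end Pool.Agent.TH505.OW
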