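import Pool.Agent.TH505.OW.Defs

/-!
The 240 symmetries of the set of roots and their action on the flows.
-/

set_option autoImplicit false

open Finset

namespace Pool.Agent.TH505.OW

/-- The permutation number `p` is injective. -/
def okp (p : ℕ) : Bool :=
  (List.range 5).all fun i => Nat.ble (pf p i + 1) 5 &&
    (List.range 5).all fun j => Nat.beq i j || !(Nat.beq (pf p i) (pf p j))

theorem okp_all : (List.range 120).all okp = true := by decide +kernel

theorem vc_iff (c : ℕ) : vc c = true ↔ c < 25 ∧ c / 5 ≠ c % 5 := by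
  unfold vc
  rw [Bool.and_eq_true, Nat.ble_eq, Bool.not_eq_true', ← Bool.not_eq_true, Nat.beq_eq]
  constructor
  · rintro ⟨h1, h2⟩; exact ⟨by omega, h2⟩
  · rintro ⟨h1, h2⟩; exact ⟨by omega, h2⟩

theorem perm (p : ℕ) (hp : p < 120) : (∀ i < 5, pf p i < 5) ∧
    (∀ i < 5, ∀ j < 5, pf p i = pf p j → i = j) ∧ ∀ i < 5, ∃ j < 5, pf p j = i := by
  have h : okp p = true := (List.all_eq_true.1 okp_all) p (List.mem_range.2 hp)
  rw [okp, List.all_eq_true] at h
  have hlt : ∀ i < 5, pf p i < 5 := by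
    intro i hi
    have h3 := h i (List.mem_range.2 hi)
    rw [Bool.and_eq_true] at h3
    exact Nat.le_of_ble_eq_true h3.1
  have hinj : ∀ i < 5, ∀ j < 5, pf p i = pf p j → i = j := by
    intro i hi j hj hij
    have h3 := h i (List.mem_range.2 hi)
    rw [Bool.and_eq_true, List.all_eq_true] at h3
    have h4 := h3.2 j (List.mem_range.2 hj)
    rw [hij, Bool.or_eq_true] at h4
    rcases h4 with h4 | h4
    · exact Nat.eq_of_beq_eq_true h4
    · rw [Nat.beq_refl] at h4
      simp at h4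
  refine ⟨hlt, hinj, fun i hi => ?_⟩
  have hinj' : Function.Injective (fun i : Fin 5 => (⟨pf p i, hlt i i.2⟩ : Fin 5)) := by
    intro i j hij
    exact Fin.ext (hinj i i.2 j j.2 (Fin.mk.inj hij))
  obtain ⟨j, hj⟩ := (Finite.injective_iff_surjective.1 hinj') ⟨i, hi⟩
  exact ⟨j, j.2, Fin.mk.inj hj⟩

theorem sw_div (c : ℕ) (hc : c < 25) : sw c / 5 = c % 5 ∧ sw c % 5 = c / 5 := by
  unfold sw
  omega

theorem sw_sw (c : ℕ) (hc : c < 25) : sw (sw c) = c := by
  unfold sw
  omega

theorem vc_sw (c : ℕ) (hc : vc c = true) : vc (sw c) = true := by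
  rw [vc_iff] at hc ⊢
  obtain ⟨h1, h2⟩ := sw_div c hc.1
  rw [h1, h2]
  exact ⟨by unfold sw; omega, fun h => hc.2 h.symm⟩

theorem co_sw (c i : ℕ) (hc : c < 25) : co (sw c) i = - co c i := by
  obtain ⟨h1, h2⟩ := sw_div c hc
  unfold co
  rw [h1, h2]
  ring

theorem pt_lo (g c : ℕ) (hg : g < 120) : pt g c = 5 * pf g (c / 5) + pf g (c % 5) := by
  unfold pt
  have : Nat.ble 120 g = false := by
    rw [← Bool.not_eq_true, Nat.ble_eq]; omega
  rw [this]; rfl

theorem pt_hi (g c : ℕ) (hg : 120 ≤ g) :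
    pt g c = 5 * pf (g - 120) (c % 5) + pf (g - 120) (c / 5) := by
  unfold pt
  have : Nat.ble 120 g = true := by rw [Nat.ble_eq]; exact hg
  rw [this]; rfl

theorem pt_hi' (g c : ℕ) (hg : 120 ≤ g) (hc : c < 25) : pt g c = pt (g - 120) (sw c) ∨ 240 ≤ g := by
  by_cases h : g < 240
  · left
    obtain ⟨h1, h2⟩ := sw_div c hc
    rw [pt_hi g c hg, pt_lo _ _ (by omega), h1, h2]
  · right; omega

theorem pt_vc_lo (g c : ℕ) (hg : g < 120) (hc : vc c = true) : vc (pt g c) = true := by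
  rw [vc_iff] at hc ⊢
  obtain ⟨h1, h2, _⟩ := perm g hg
  rw [pt_lo g c hg]
  have a1 := h1 (c / 5) (by omega)
  have a2 := h1 (c % 5) (by omega)
  have a3 := fun h => hc.2 (h2 (c / 5) (by omega) (c % 5) (by omega) h)
  refine ⟨by omega, ?_⟩
  have e1 : (5 * pf g (c / 5) + pf g (c % 5)) / 5 = pf g (c / 5) := by omega
  have e2 : (5 * pf g (c / 5) + pf g (c % 5)) % 5 = pf g (c % 5) := by omega
  rw [e1, e2]
  exact a3

theorem pt_vc (g c : ℕ) (hg : g < 240) (hc : vc c = true) : vc (pt g c) = true := by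
  by_cases h : g < 120
  · exact pt_vc_lo g c h hc
  · have h25 := ((vc_iff c).1 hc).1
    rcases pt_hi' g c (by omega) h25 with h1 | h1
    · rw [h1]; exact pt_vc_lo _ _ (by omega) (vc_sw c hc)
    · omega

theorem pt_sw (g c : ℕ) (hg : g < 240) (hc : vc c = true) : pt g (sw c) = sw (pt g c) := by
  have h25 := ((vc_iff c).1 hc).1
  have h25' := ((vc_iff _).1 (vc_sw c hc)).1
  obtain ⟨s1, s2⟩ := sw_div c h25
  have key : ∀ g < 120, pt g (sw c) = sw (pt g c) := by
    intro g hg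
    obtain ⟨h1, _, _⟩ := perm g hg
    have a1 := h1 (c / 5) (by omega)
    have a2 := h1 (c % 5) (by omega)
    rw [pt_lo g _ hg, pt_lo g _ hg, s1, s2]
    unfold sw
    omega
  by_cases h : g < 120
  · exact key g h
  · rcases pt_hi' g c (by omega) h25 with h1 | h1
    · rcases pt_hi' g (sw c) (by omega) h25' with h2 | h2
      · rw [h2, h1, sw_sw c h25, key (g - 120) (by omega),
          sw_sw _ ((vc_iff _).1 (pt_vc_lo (g - 120) c (by omega) hc)).1]
      · omega
    · omega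

theorem co_pt_lo (g : ℕ) (hg : g < 120) (i : ℕ) (hi : i < 5) :
    ∃ j < 5, ∀ c, vc c = true → co (pt g c) i = co c j := by
  obtain ⟨h1, h2, h3⟩ := perm g hg
  obtain ⟨j, hj, hji⟩ := h3 i hi
  refine ⟨j, hj, fun c hc => ?_⟩
  rw [vc_iff] at hc
  have a1 := h1 (c / 5) (by omega)
  have a2 := h1 (c % 5) (by omega)
  have e1 : (5 * pf g (c / 5) + pf g (c % 5)) / 5 = pf g (c / 5) := by omega
  have e2 : (5 * pf g (c / 5) + pf g (c % 5)) % 5 = pf g (c % 5) := by omega
  have b1 : pf g (c / 5) = i ↔ c / 5 = j := by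
    rw [← hji]
    exact ⟨fun h => h2 _ (by omega) _ hj h, fun h => by rw [h]⟩
  have b2 : pf g (c % 5) = i ↔ c % 5 = j := by
    rw [← hji]
    exact ⟨fun h => h2 _ (by omega) _ hj h, fun h => by rw [h]⟩
  unfold co
  rw [pt_lo g c hg, e1, e2]
  simp only [b1, b2]

theorem act_good : StmAct := by
  intro V E _ s t X f p hp ⟨h1, h2⟩
  refine ⟨fun e => pt_vc p _ hp (h1 e), fun v hv i hi => ?_⟩
  by_cases h : p < 120
  · obtain ⟨j, hj, hc⟩ := co_pt_lo p h i hi
    rw [← h2 v hv j hj]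
    congr 1
    funext e
    exact hc _ (h1 e)
  · obtain ⟨j, hj, hc⟩ := co_pt_lo (p - 120) (by omega) i hi
    have h3 : (fun e => co (pt p (f e)) i) = fun e => - co (f e) j := by
      funext e
      have h25 := ((vc_iff _).1 (h1 e)).1
      rcases pt_hi' p (f e) (by omega) h25 with h4 | h4
      · rw [h4, hc _ (vc_sw _ (h1 e)), co_sw _ _ h25]
      · omega
    rw [h3]
    have h4 := h2 v hv j hj
    unfold bd at h4 ⊢
    simp only [neg_mul]
    rw [Finset.sum_neg_distrib, h4, neg_zero]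

theorem trans_all : ((List.range 25).all fun c => (List.range 25).all fun d => !(vc c) || !(vc d) ||
    (List.range 240).any fun p => Nat.beq (pt p c) d) = true := by decide +kernel

theorem trans : StmTrans := by
  intro c hc d hd
  have h1 := (List.all_eq_true.1 trans_all) c (List.mem_range.2 ((vc_iff c).1 hc).1)
  have h2 := (List.all_eq_true.1 h1) d (List.mem_range.2 ((vc_iff d).1 hd).1)
  rw [hc, hd] at h2
  simp only [Bool.not_true, Bool.false_or] at h2
  obtain ⟨p, hp, h3⟩ := List.any_eq_true.1 h2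
  exact ⟨p, List.mem_range.1 hp, Nat.eq_of_beq_eq_true h3⟩

end Pool.Agent.TH505.OW
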