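import Mathlib
import Pool.Agent.TH505.OW.Chk

/-! Soundness of the checker for the gluings. -/

set_option autoImplicit false

namespace Pool.Agent.TH505.OW

theorem frc_eq (n : ℕ) (f : ℕ → Bool) : frc n f = f n := by
  cases n <;> rfl

theorem allN_mem {l : List ℕ} {f : ℕ → Bool} (h : allN l f = true) : ∀ x ∈ l, f x = true := by
  induction l with
  | nil => intro x hx; simp at hx
  | cons y l ih =>
    have h' : cond (f y) (allN l f) false = true := h
    intro x hx
    cases hy : f y with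
    | false => rw [hy] at h'; simp at h'
    | true =>
      rw [hy] at h'
      rcases List.mem_cons.mp hx with rfl | hx
      · exact hy
      · exact ih h' x hx

theorem orN_bit {l : List ℕ} {f : ℕ → ℕ} {n : ℕ} (h : (orN l f).testBit n = true) :
    ∃ r ∈ l, (f r).testBit n = true := by
  induction l with
  | nil =>
    have h' : (0 : ℕ).testBit n = true := h
    simp at h'
  | cons y l ih =>
    have h' : (orN l f ||| f y).testBit n = true := h
    rw [Nat.testBit_or, Bool.or_eq_true] at h'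
    rcases h' with h' | h'
    · obtain ⟨r, hr, h2⟩ := ih h'
      exact ⟨r, List.mem_cons_of_mem _ hr, h2⟩
    · exact ⟨y, List.mem_cons_self, h'⟩

theorem row_bit {P w r n : ℕ} (h : (row P w (2 ^ w) r).testBit n = true) :
    n < w ∧ P.testBit (w * r + n) = true := by
  have h' : ((P >>> (w * r)) % 2 ^ w).testBit n = true := h
  rw [Nat.testBit_mod_two_pow, Bool.and_eq_true, decide_eq_true_iff, Nat.testBit_shiftRight] at h'
  exact h'

theorem andf_bit {R NG FU g : ℕ} {t : List ℕ} (h : (andf R NG FU t).testBit g = true) :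
    ∀ r ∈ t, R.testBit (NG * r + g) = true := by
  induction t with
  | nil => intro r hr; simp at hr
  | cons y l ih =>
    have h' : (andf R NG FU l &&& (R >>> (NG * y))).testBit g = true := h
    rw [Nat.testBit_and, Bool.and_eq_true, Nat.testBit_shiftRight] at h'
    intro r hr
    rcases List.mem_cons.mp hr with rfl | hr
    · exact h'.2
    · exact ih h'.1 r hr

theorem orT_bit {R NG FU g : ℕ} {T : List (List ℕ)} (h : (orT R NG FU T).testBit g = true) :
    ∃ t ∈ T, ∀ r ∈ t, R.testBit (NG * r + g) = true := by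
  induction T with
  | nil =>
    have h' : (0 : ℕ).testBit g = true := h
    simp at h'
  | cons y l ih =>
    have h' : (orT R NG FU l ||| andf R NG FU y).testBit g = true := h
    rw [Nat.testBit_or, Bool.or_eq_true] at h'
    rcases h' with h' | h'
    · obtain ⟨r, hr, h2⟩ := ih h'
      exact ⟨r, List.mem_cons_of_mem _ hr, h2⟩
    · exact ⟨y, List.mem_cons_self, andf_bit h'⟩

theorem chk_sound {P w NG A n : ℕ} {B : List ℕ} {T : List (List ℕ)} {l : List ℕ}
    (h : chk P w (2 ^ w) NG (2 ^ NG - 1) A n B T l = true) :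
    ∀ ρ ∈ B, ∀ g < NG, ∃ t ∈ T, ∀ x ∈ t, ∃ r ∈ l, NG * x + g < w ∧
      P.testBit (w * actA A n ρ r + (NG * x + g)) = true := by
  intro ρ hρ g hg
  have h1 := allN_mem h ρ hρ
  rw [frc_eq] at h1
  have h2 := Nat.eq_of_beq_eq_true h1
  have h3 : (orT (orN l (fun r => row P w (2 ^ w) (actA A n ρ r))) NG (2 ^ NG - 1) T).testBit g
      = true := by
    rw [h2, Nat.testBit_two_pow_sub_one, decide_eq_true_iff]
    exact hg
  obtain ⟨t, ht, h4⟩ := orT_bit h3
  refine ⟨t, ht, fun x hx => ?_⟩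
  obtain ⟨r, hr, h5⟩ := orN_bit (h4 x hx)
  exact ⟨r, hr, row_bit h5⟩

theorem one_bit {n m : ℕ} (h : (Nat.shiftLeft 1 n).testBit m = true) : m = n := by
  have h' : (1 <<< n).testBit m = true := h
  rw [Nat.shiftLeft_eq, one_mul, Nat.testBit_two_pow] at h'
  exact (decide_eq_true_iff.mp h').symm

theorem lin_inj {N a b c d : ℕ} (hc : c < N) (hd : d < N) (h : N * a + c = N * b + d) :
    a = b ∧ c = d := by
  have hN : 0 < N := by omega
  have h1 : (N * a + c) / N = a := by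
    rw [Nat.mul_add_div hN, Nat.div_eq_of_lt hc, add_zero]
  have h2 : (N * b + d) / N = b := by
    rw [Nat.mul_add_div hN, Nat.div_eq_of_lt hd, add_zero]
  have h3 : a = b := by rw [← h1, ← h2, h]
  subst h3
  exact ⟨rfl, by omega⟩

theorem colF_bit {A n NG r1 g : ℕ} : ∀ (L : List (List ℕ × ℕ)) (g0 : ℕ), g < NG →
    g0 + L.length ≤ NG → (colF A n NG L g0).testBit (NG * r1 + g) = true →
    ∃ i, g = g0 + i ∧ ∃ x, L[i]? = some x ∧ ∃ r ∈ x.1, actA A n x.2 r = r1 := by
  intro L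
  induction L with
  | nil =>
    intro g0 _ _ h
    have h' : (0 : ℕ).testBit (NG * r1 + g) = true := h
    simp at h'
  | cons y L ih =>
    intro g0 hg hL h
    have h' : (colF A n NG L (g0 + 1) |||
      (orN y.1 (fun r => Nat.shiftLeft 1 (Nat.add (Nat.mul NG (actA A n y.2 r)) g0)))).testBit
        (NG * r1 + g) = true := h
    rw [Nat.testBit_or, Bool.or_eq_true] at h'
    rw [List.length_cons] at hL
    rcases h' with h' | h'
    · obtain ⟨i, hi, x, hx, hr⟩ := ih (g0 + 1) hg (by omega) h'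
      exact ⟨i + 1, by omega, x, by simpa using hx, hr⟩
    · obtain ⟨r, hr, h2⟩ := orN_bit h'
      have h3 := one_bit h2
      obtain ⟨h4, h5⟩ := lin_inj hg (by omega : g0 < NG) h3
      exact ⟨0, by omega, y, by simp, r, hr, h4.symm⟩

/-- Glued states. -/
def GlueP (a b c r1 r2 r3 p q : ℕ) : Prop :=
  (∀ i < c, pt p (dig (rp a r1) (a - c + i)) = sw (pt q (dig (rp b r2) i))) ∧
  (∀ i < a - c, pt p (dig (rp a r1) i) = dig (rp (a + b - 2 * c) r3) i) ∧
  (∀ i < b - c, pt q (dig (rp b r2) (c + i)) = dig (rp (a + b - 2 * c) r3) (a - c + i))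

/-- What the tables say about a gluing along `c` ends. -/
def TabOK (a b c : ℕ) : Prop := ∀ l1 ∈ Fl a, ∀ π ∈ pa a c, ∀ l2 ∈ Fl b, ∀ ρ ∈ pb b c,
  ∃ l3 ∈ Fl (a + b - 2 * c), ∃ σ < fc (a + b - 2 * c), ∀ x ∈ l3, ∃ x1 ∈ l1, ∃ x2 ∈ l2,
    ∃ p < 240, ∃ q < 240, GlueP a b c (act a π x1) (act b ρ x2) (act (a + b - 2 * c) σ x) p q

theorem okE_sound {a b c e : ℕ} (h : okE a b c e = true) :
    e / 16384 % 128 < nr (a + b - 2 * c) ∧ e / 2097152 % 256 < 240 ∧ e / 536870912 < 240 ∧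
    GlueP a b c (e % 128) (e / 128 % 128) (e / 16384 % 128) (e / 2097152 % 256)
      (e / 536870912) := by
  unfold okE at h
  simp only [Bool.and_eq_true, Nat.ble_eq, List.all_eq_true, List.mem_range, Nat.beq_eq] at h
  obtain ⟨⟨⟨⟨⟨⟨⟨_, _⟩, h3⟩, h4⟩, h5⟩, h6⟩, h7⟩, h8⟩ := h
  exact ⟨by omega, by omega, by omega, h6, h7, h8⟩

theorem tab_of (a b c NG n3 w W FU co P : ℕ) (en : List ℕ) (T : List (List ℕ)) (tc : List ℕ)
    (B : List ℕ) (Ab nb' Aa na' : ℕ)
    (hn3 : nr (a + b - 2 * c) = n3) (hw : NG * n3 = w) (hW : 2 ^ w = W)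
    (hFU : 2 ^ NG - 1 = FU) (hB : pb b c = B) (hAb : AT b = Ab) (hnb : nr b = nb')
    (hAa : AT a = Aa) (hna : nr a = na') (hfc : 0 < fc (a + b - 2 * c))
    (hlen : (ml a c).length = NG)
    (hco : Nat.beq (colF Aa na' NG (ml a c) 0) co = true)
    (hP : Nat.beq (ppF en co NG (2 ^ NG) n3) P = true)
    (hen : en.all (okE a b c) = true)
    (hT : okT (a + b - 2 * c) T tc = true)
    (hchk : (Fl b).all (fun l => chk P w W NG FU Ab nb' B T l) = true) : TabOK a b c := by
  intro l1 hl1 π hπ l2 hl2 ρ hρ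
  subst hn3 hw hW hFU hB hAb hnb hAa hna
  have hco' := Nat.eq_of_beq_eq_true hco
  have hP' := Nat.eq_of_beq_eq_true hP
  have hmem : (l1, π) ∈ ml a c := by
    unfold ml
    rw [List.mem_flatMap]
    exact ⟨l1, hl1, List.mem_map.mpr ⟨π, hπ, rfl⟩⟩
  obtain ⟨g, hg, hgm⟩ := List.getElem_of_mem hmem
  rw [hlen] at hg
  have h1 := (List.all_eq_true.mp hchk) l2 hl2
  obtain ⟨t, ht, h2⟩ := chk_sound h1 ρ hρ g hg
  unfold okT at hT
  rw [Bool.and_eq_true, decide_eq_true_iff, List.all_eq_true] at hT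
  rw [hT.1] at ht
  obtain ⟨code, hcode, rfl⟩ := List.mem_map.mp ht
  have hlt := hT.2 code hcode
  rw [Nat.ble_eq] at hlt
  have hlt' : code / fc (a + b - 2 * c) < (Fl (a + b - 2 * c)).length := by omega
  have hgetD : (Fl (a + b - 2 * c)).getD (code / fc (a + b - 2 * c)) [] =
      (Fl (a + b - 2 * c))[code / fc (a + b - 2 * c)] := by
    rw [List.getD_eq_getElem?_getD, List.getElem?_eq_getElem hlt']
    rfl
  refine ⟨(Fl (a + b - 2 * c))[code / fc (a + b - 2 * c)], List.getElem_mem _,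
    code % fc (a + b - 2 * c), Nat.mod_lt _ hfc, fun x hx => ?_⟩
  have hxt : act (a + b - 2 * c) (code % fc (a + b - 2 * c)) x ∈ tof (a + b - 2 * c) code := by
    unfold tof
    rw [hgetD]
    exact List.mem_map.mpr ⟨x, hx, rfl⟩
  obtain ⟨x2, hx2, h3, h4⟩ := h2 _ hxt
  obtain ⟨r3, hr3⟩ : ∃ r3, r3 = act (a + b - 2 * c) (code % fc (a + b - 2 * c)) x := ⟨_, rfl⟩
  rw [← hr3] at h3 h4 ⊢
  obtain ⟨n3, hn3⟩ : ∃ n3, n3 = nr (a + b - 2 * c) := ⟨_, rfl⟩
  rw [← hn3] at h3 h4
  have hr3lt : r3 < n3 := by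
    by_contra hcon
    have : NG * n3 ≤ NG * r3 := Nat.mul_le_mul_left _ (by omega)
    omega
  rw [← hP'] at h4
  obtain ⟨e, he, h5⟩ := orN_bit h4
  obtain ⟨q1, q2, q3, q4⟩ := okE_sound ((List.all_eq_true.mp hen) e he)
  rw [← hn3] at q1 h5
  have h5' : ((row co NG (2 ^ NG) (e % 128)) <<<
      (NG * (n3 * (e / 128 % 128) + e / 16384 % 128))).testBit
      (NG * n3 * act b ρ x2 + (NG * r3 + g)) = true := h5
  rw [Nat.testBit_shiftLeft, Bool.and_eq_true, decide_eq_true_iff] at h5'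
  obtain ⟨h6, h7⟩ := h5'
  obtain ⟨h8, h9⟩ := row_bit h7
  have h10 : NG * (n3 * act b ρ x2 + r3) + g =
      NG * (n3 * (e / 128 % 128) + e / 16384 % 128) +
      (NG * n3 * act b ρ x2 + (NG * r3 + g) - NG * (n3 * (e / 128 % 128) + e / 16384 % 128)) := by
    rw [Nat.add_sub_cancel' h6]
    ring
  obtain ⟨h11, h12⟩ := lin_inj hg h8 h10
  obtain ⟨h13, h14⟩ := lin_inj hr3lt q1 h11
  rw [← h12, ← hco'] at h9
  obtain ⟨i, hi, y, hy, x1, hx1, hx1'⟩ := colF_bit (ml a c) 0 hg (by omega) h9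
  have hig : i = g := by omega
  subst hig
  rw [List.getElem?_eq_getElem (by omega), hgm, Option.some_inj] at hy
  subst hy
  refine ⟨x1, hx1, x2, hx2, _, q2, _, q3, ?_⟩
  have e1 : act a π x1 = e % 128 := hx1'
  have e2 : act b ρ x2 = e / 128 % 128 := h13
  rw [e1, e2, h14]
  exact q4

end Pool.Agent.TH505.OW
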